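import Mathlib
import Pool.Agent.V11146.BlowupThr

set_option autoImplicit false

namespace Pool.Agent.Results.MP_0aef5d_co.WheelVCBlowup

open Finset SimpleGraph Pool.Agent.V11146.BlowupThr

/-- The vertex set `S` is shattered by the neighbourhoods of `G`. -/
def Shattered {V : Type} (G : SimpleGraph V) (S : Finset V) : Prop :=
  ∀ T : Finset V, T ⊆ S → ∃ v : V, ∀ x ∈ S, (G.Adj v x ↔ x ∈ T)

/-- The VC-dimension of (the neighbourhood system of) `G` is at most `C`. -/
def VCAtMost {V : Type} (G : SimpleGraph V) (C : ℕ) : Prop :=
  ∀ S : Finset V, Shattered G S → S.card ≤ C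

/-- The set of `α ≥ 0` for which some `C` has the property that every maximal `H`-free finite graph
`G` with minimum degree at least `α |G|` has VC-dimension at most `C`. -/
def vcSet {W : Type} (H : SimpleGraph W) : Set ℝ :=
  {α : ℝ | 0 ≤ α ∧ ∃ C : ℕ, ∀ (V : Type) [Fintype V] (G : SimpleGraph V),
    MaximalFree H G → MinDegGe G α → VCAtMost G C}

/-- The VC-dimension threshold of `H`. -/
noncomputable def vcThreshold {W : Type} (H : SimpleGraph W) : ℝ := sInf (vcSet H)

/-- in a maximal wheel-free graph with two sides all cross pairs are adjacent. -/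
lemma cross_adj {V : Type} (G : SimpleGraph V) (hmax : MaximalFree wheel4 G) (side : V → Bool)
    (h : ∀ x y z, side x = side y → side x = side z → G.Adj x y → G.Adj x z → y = z)
    (u v : V) (huv : side u ≠ side v) : G.Adj u v := by
  by_contra hn
  have hne : u ≠ v := fun e => huv (by rw [e])
  have hc := hmax.2 u v hne hn
  have key : ∀ x y, side x = side y → (G ⊔ SimpleGraph.edge u v).Adj x y → G.Adj x y := by
    intro x y hxy hadj
    rw [SimpleGraph.sup_adj, SimpleGraph.edge_adj] at hadj
    rcases hadj with h | ⟨⟨rfl, rfl⟩ | ⟨rfl, rfl⟩, _⟩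
    · exact h
    · exact absurd hxy huv
    · exact absurd hxy.symm huv
  exact free_of_sides _ side (fun x y z h1 h2 h3 h4 => h x y z h1 h2 (key _ _ h1 h3) (key _ _ h2 h4)) hc

lemma vc_le_four {V : Type} (G : SimpleGraph V) (hmax : MaximalFree wheel4 G) (side : V → Bool)
    (h : ∀ x y z, side x = side y → side x = side z → G.Adj x y → G.Adj x z → y = z) :
    VCAtMost G 4 := by
  classical
  intro S hS
  by_contra hcard
  push Not at hcard
  have hsplit : (S.filter (fun x => side x = true)).card + (S.filter (fun x => ¬ side x = true)).card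
      = S.card := Finset.card_filter_add_card_filter_not _
  have key : ∀ b : Bool, ¬ 2 < (S.filter (fun x => side x = b)).card := by
    intro b hb
    obtain ⟨x, y, z, hx, hy, hz, hxy, hxz, hyz⟩ := Finset.two_lt_card_iff.mp hb
    simp only [mem_filter] at hx hy hz
    obtain ⟨v, hv⟩ := hS {x, y} (by
      intro w hw
      simp only [mem_insert, mem_singleton] at hw
      rcases hw with rfl | rfl
      · exact hx.1
      · exact hy.1)
    have h1 : G.Adj v x := (hv x hx.1).mpr (by simp)
    have h2 : G.Adj v y := (hv y hy.1).mpr (by simp)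
    have h3 : ¬ G.Adj v z := fun h' => by
      have := (hv z hz.1).mp h'
      simp only [mem_insert, mem_singleton] at this
      rcases this with e | e
      · exact hxz e.symm
      · exact hyz e.symm
    by_cases hvb : side v = b
    · exact hxy (h v x y (by rw [hvb, hx.2]) (by rw [hvb, hy.2]) h1 h2)
    · exact h3 (cross_adj G hmax side h v z (by rw [hz.2]; exact hvb))
  have k1 := key true
  have k2 := key false
  have e : (S.filter (fun x => ¬ side x = true)) = S.filter (fun x => side x = false) := by
    ext x; simp
  rw [e] at hsplit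
  omega

lemma mem_vcSet : (499 / 1000 : ℝ) ∈ vcSet wheel4 := by
  refine ⟨by norm_num, 2000000, ?_⟩
  intro V _ G hG hd
  by_cases hn : Fintype.card V < 2000000
  · intro S _
    exact (Finset.card_le_univ S).trans hn.le
  · obtain ⟨side, hside⟩ := exists_sides G hG.1 hd (by omega)
    intro S hS
    exact (vc_le_four G hG side hside S hS).trans (by norm_num)

/-- For the wheel with four spokes `K_{1,2,2}` the VC-dimension threshold is at most `0.499` while
the blowup threshold is at least `1/2`; hence the two thresholds are not equal for all graphs. -/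
theorem result :
    (vcThreshold wheel4 ≤ 499 / 1000 ∧ 1 / 2 ≤ blowupThreshold wheel4) ∧
    ¬ ∀ (k : ℕ) (H : SimpleGraph (Fin k)), vcThreshold H = blowupThreshold H := by
  have h1 : vcThreshold wheel4 ≤ 499 / 1000 := csInf_le ⟨0, fun _ h => h.1⟩ mem_vcSet
  have h2 : 1 / 2 ≤ blowupThreshold wheel4 := half_le_blowupThreshold
  refine ⟨⟨h1, h2⟩, ?_⟩
  intro h
  have h3 := h 5 wheel4
  rw [h3] at h1
  linarith

end Pool.Agent.Results.MP_0aef5d_co.WheelVCBlowup
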